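import Mathlib
import Pool.Agent.Q21.VanDantzig

set_option autoImplicit false

namespace Pool.Agent.Results.MP_4e651d_al.ResidualOrder

universe u

section defs

variable (G : Type u) [Group G] [TopologicalSpace G]

/-- The set of closed compactly generated subgroups of `G`. -/
def KG : Set (Subgroup G) :=
  {K | IsClosed (K : Set G) ∧ ∃ C : Set G, IsCompact C ∧ Subgroup.closure C = K}

variable {G}

/-- The discrete residual of `K` in `G`: the intersection of all open subgroups `O` of `G` with
`kO = Ok` for every `k` in `K`. -/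
def Res (K : Subgroup G) : Subgroup G :=
  sInf {O : Subgroup G | IsOpen (O : Set G) ∧
    ∀ k ∈ K, (fun x => k * x) '' (O : Set G) = (fun x => x * k) '' (O : Set G)}

/-- The residual order. -/
def RLE (K₁ K₂ : Subgroup G) : Prop := K₁ ≤ Res K₂ ∨ K₁ = K₂

/-- The strict residual order. -/
def RLT (K₁ K₂ : Subgroup G) : Prop := RLE K₁ K₂ ∧ K₁ ≠ K₂

/-- The residual hierarchy: `Hier 0` consists of the trivial subgroup only, `Hier 1` consists of
the closed compactly generated `K` with trivial discrete residual, and for `α > 1` the set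
`Hier α` consists of the closed compactly generated `K` such that every closed compactly generated
`L` strictly below `K` lies in `Hier β` for some `β < α`. -/
def Hier (α : Ordinal.{0}) : Set (Subgroup G) :=
  {K | (α = 0 ∧ K = ⊥) ∨ (α = 1 ∧ K ∈ KG G ∧ Res K = ⊥) ∨
    (1 < α ∧ K ∈ KG G ∧ ∀ L ∈ KG G, RLT L K → ∃ β, ∃ _ : β < α, L ∈ Hier β)}
termination_by α

variable (G)

/-- The residual rank of `G` is well-defined: every closed compactly generated subgroup lies in
`Hier α` for some countable ordinal `α`. -/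
def RankWellDefined : Prop :=
  ∀ K ∈ KG G, ∃ α : Ordinal.{0}, α < Ordinal.omega 1 ∧ K ∈ Hier (G := G) α

end defs

variable {G : Type u} [Group G] [TopologicalSpace G]

theorem le_of_normalised {K O : Subgroup G} (hO : IsOpen (O : Set G))
    (h : ∀ k ∈ K, (fun x => k * x) '' (O : Set G) = (fun x => x * k) '' (O : Set G)) :
    Res K ≤ O := sInf_le ⟨hO, h⟩

theorem coset_eq {O : Subgroup G} {k : G} (hk : k ∈ O) :
    (fun x => k * x) '' (O : Set G) = (fun x => x * k) '' (O : Set G) := by
  ext y
  constructor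
  · rintro ⟨x, hx, rfl⟩
    exact ⟨k * x * k⁻¹, O.mul_mem (O.mul_mem hk hx) (O.inv_mem hk), by simp⟩
  · rintro ⟨x, hx, rfl⟩
    exact ⟨k⁻¹ * (x * k), O.mul_mem (O.inv_mem hk) (O.mul_mem hx hk), by simp⟩

theorem res_le_res {K₂ K₃ : Subgroup G} (h : K₂ ≤ Res K₃) : Res K₂ ≤ Res K₃ := by
  refine le_sInf ?_
  rintro O ⟨hO, hK⟩
  have h2 : K₂ ≤ O := h.trans (le_of_normalised hO hK)
  exact le_of_normalised hO fun k hk => coset_eq (h2 hk)

theorem rle_trans {K₁ K₂ K₃ : Subgroup G} (h12 : RLE K₁ K₂) (h23 : RLE K₂ K₃) : RLE K₁ K₃ := by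
  rcases h12 with h12 | rfl
  · rcases h23 with h23 | rfl
    · exact Or.inl (h12.trans (res_le_res h23))
    · exact Or.inl h12
  · exact h23

theorem res_bot [IsTopologicalGroup G] [LocallyCompactSpace G] [T2Space G]
    [TotallyDisconnectedSpace G] : Res (⊥ : Subgroup G) = ⊥ := by
  rw [eq_bot_iff]
  intro x hx
  rw [Subgroup.mem_bot]
  by_contra hne
  obtain ⟨H, hHo, -, hHN⟩ := Q21.VanDantzig.exists_subgroup ({x}ᶜ : Set G)
    (isOpen_compl_singleton.mem_nhds (fun h => hne h.symm))
  have h1 : Res (⊥ : Subgroup G) ≤ H := le_of_normalised hHo fun k hk => by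
    rw [Subgroup.mem_bot] at hk
    rw [hk]
    simp
  exact hHN (h1 hx) rfl

/-- If the residual rank of a totally disconnected locally compact group `G` is well-defined, then
the residual order is a partial order on the set of closed compactly generated subgroups. -/
theorem result (G : Type u) [Group G] [TopologicalSpace G] [IsTopologicalGroup G]
    [LocallyCompactSpace G] [T2Space G] [TotallyDisconnectedSpace G] (h : RankWellDefined G) :
    IsPartialOrder {K : Subgroup G // K ∈ KG G} (fun K L => RLE K.1 L.1) := by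
  have key : ∀ α : Ordinal.{0}, ∀ K₁ ∈ KG G, ∀ K₂ ∈ KG G, RLE K₁ K₂ → RLE K₂ K₁ →
      (K₁ ∈ Hier (G := G) α ∨ K₂ ∈ Hier (G := G) α) → K₁ = K₂ := by
    intro α
    induction α using WellFoundedLT.induction with
    | _ α ih =>
      have half : ∀ K₁ ∈ KG G, ∀ K₂ ∈ KG G, RLE K₁ K₂ → RLE K₂ K₁ →
          K₁ ∈ Hier (G := G) α → K₁ = K₂ := by
        intro K₁ hK₁ K₂ hK₂ h12 h21 hα
        by_contra hne
        have h12' : K₁ ≤ Res K₂ := h12.resolve_right hne
        have h21' : K₂ ≤ Res K₁ := h21.resolve_right (Ne.symm hne)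
        have htriv : Res K₁ = ⊥ → False := by
          intro hr
          rw [hr] at h21'
          have h2 : K₂ = ⊥ := le_bot_iff.1 h21'
          rw [h2, res_bot] at h12'
          exact hne ((le_bot_iff.1 h12').trans h2.symm)
        rw [Hier] at hα
        rcases hα with ⟨-, h0⟩ | ⟨-, -, h1⟩ | ⟨-, -, h2⟩
        · exact htriv (by rw [h0, res_bot])
        · exact htriv h1
        · obtain ⟨β, hβ, hmem⟩ := h2 K₂ hK₂ ⟨h21, Ne.symm hne⟩
          exact hne (ih β hβ K₁ hK₁ K₂ hK₂ h12 h21 (Or.inr hmem))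
      rintro K₁ hK₁ K₂ hK₂ h12 h21 (hα | hα)
      · exact half K₁ hK₁ K₂ hK₂ h12 h21 hα
      · exact (half K₂ hK₂ K₁ hK₁ h21 h12 hα).symm
  exact
    { refl := fun K => Or.inr rfl
      trans := fun K L M => rle_trans
      antisymm := fun K L h1 h2 => by
        obtain ⟨α, -, hα⟩ := h K.1 K.2
        exact Subtype.ext (key α K.1 K.2 L.1 L.2 h1 h2 (Or.inl hα)) }

end Pool.Agent.Results.MP_4e651d_al.ResidualOrder
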